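import Mathlib

/-!
# Words in two real `2 × 2` matrices

`Alive A B w`: some bilinear functional `M ↦ α M β` is larger at the word `w` in the matrices `A`, `B`
than at all other rearrangements of `w`.
-/

set_option autoImplicit false

namespace Pool.Agent.Q266.GPF

open Matrix

/-- real `2 × 2` matrices -/
abbrev M2 : Type := Matrix (Fin 2) (Fin 2) ℝ

/-- the product of the matrices `A` (letter `false`) and `B` (letter `true`) along a word -/
def W (A B : M2) (w : List Bool) : M2 := (w.map (fun c => if c then B else A)).prod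

/-- the functional `M ↦ α M β` -/
def val (α β : Fin 2 → ℝ) (M : M2) : ℝ := α ⬝ᵥ (M *ᵥ β)

/-- the word `w` is the unique maximiser among its rearrangements for some functional -/
def Alive (A B : M2) (w : List Bool) : Prop :=
  ∃ α β : Fin 2 → ℝ, ∀ z : List Bool, z.Perm w → z ≠ w → val α β (W A B z) < val α β (W A B w)

/-- all words of length at most `N` are alive -/
def Rich (N : ℕ) (A B : M2) : Prop := ∀ w : List Bool, w.length ≤ N → Alive A B w

theorem W_nil (A B : M2) : W A B [] = 1 := rfl

theorem W_false (A B : M2) (w : List Bool) : W A B (false :: w) = A * W A B w := by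
  simp [W]

theorem W_true (A B : M2) (w : List Bool) : W A B (true :: w) = B * W A B w := by
  simp [W]

theorem W_append (A B : M2) (v w : List Bool) : W A B (v ++ w) = W A B v * W A B w := by
  simp [W]

theorem val_add (α β : Fin 2 → ℝ) (M N : M2) : val α β (M + N) = val α β M + val α β N := by
  simp only [val, Matrix.add_mulVec, dotProduct_add]

theorem val_smul (α β : Fin 2 → ℝ) (c : ℝ) (M : M2) : val α β (c • M) = c * val α β M := by
  simp only [val, Matrix.smul_mulVec, dotProduct_smul, smul_eq_mul]

theorem val_sub (α β : Fin 2 → ℝ) (M N : M2) : val α β (M - N) = val α β M - val α β N := by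
  simp only [val, Matrix.sub_mulVec, dotProduct_sub]

/-! ### coefficients with respect to `1`, `A`, `B`, `A B` -/

/-- four coefficients -/
structure C4 where
  /-- the coefficient of `1` -/
  c0 : ℝ
  /-- the coefficient of `A` -/
  c1 : ℝ
  /-- the coefficient of `B` -/
  c2 : ℝ
  /-- the coefficient of `A B` -/
  c3 : ℝ

/-- the linear combination -/
def comb (A B : M2) (c : C4) : M2 := c.c0 • 1 + c.c1 • A + c.c2 • B + c.c3 • (A * B)

/-- multiplication by `A` from the left -/
def stA (a dA : ℝ) (c : C4) : C4 := ⟨-(dA * c.c1), c.c0 + a * c.c1, -(dA * c.c3), c.c2 + a * c.c3⟩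

/-- multiplication by `B` from the left -/
def stB (a b u dB : ℝ) (c : C4) : C4 :=
  ⟨(u - a * b) * c.c1 - dB * c.c2 - a * dB * c.c3, b * c.c1 + dB * c.c3,
    c.c0 + a * c.c1 + b * c.c2 + u * c.c3, -c.c1⟩

/-- the coefficients of a word -/
def cf (a b u dA dB : ℝ) : List Bool → C4
  | [] => ⟨1, 0, 0, 0⟩
  | false :: w => stA a dA (cf a b u dA dB w)
  | true :: w => stB a b u dB (cf a b u dA dB w)

theorem A_mul_comb (A B : M2) (c : C4) : A * comb A B c = comb A B (stA A.trace A.det c) := by
  ext i j
  fin_cases i <;> fin_cases j <;>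
    simp [comb, stA, Matrix.mul_apply, Fin.sum_univ_two, Matrix.trace_fin_two, Matrix.det_fin_two] <;> ring

theorem B_mul_comb (A B : M2) (c : C4) :
    B * comb A B c = comb A B (stB A.trace B.trace (A * B).trace B.det c) := by
  ext i j
  fin_cases i <;> fin_cases j <;>
    simp [comb, stB, Matrix.mul_apply, Fin.sum_univ_two, Matrix.trace_fin_two, Matrix.det_fin_two] <;> ring

theorem W_eq_comb (A B : M2) (w : List Bool) :
    W A B w = comb A B (cf A.trace B.trace (A * B).trace A.det B.det w) := by
  induction w with
  | nil => simp [W_nil, comb, cf]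
  | cons x w ih =>
    cases x with
    | false => rw [W_false, ih, A_mul_comb]; rfl
    | true => rw [W_true, ih, B_mul_comb]; rfl

theorem val_comb (α β : Fin 2 → ℝ) (A B : M2) (c : C4) :
    val α β (comb A B c) = c.c0 * val α β 1 + c.c1 * val α β A + c.c2 * val α β B +
      c.c3 * val α β (A * B) := by
  simp only [comb, val_add, val_smul]

theorem val_W {α β : Fin 2 → ℝ} {A B : M2} {a b u : ℝ} (hA : A.det = 1) (hB : B.det = 1)
    (ha : A.trace = a) (hb : B.trace = b) (hu : (A * B).trace = u) (w : List Bool) :
    val α β (W A B w) = (cf a b u 1 1 w).c0 * val α β 1 + (cf a b u 1 1 w).c1 * val α β A +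
      (cf a b u 1 1 w).c2 * val α β B + (cf a b u 1 1 w).c3 * val α β (A * B) := by
  rw [W_eq_comb, val_comb, hA, hB, ha, hb, hu]

end Pool.Agent.Q266.GPF
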