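import Pool.Agent.Q266.GPF.Base

/-!
# Words which are not alive
-/

set_option autoImplicit false

namespace Pool.Agent.Q266.GPF

open Matrix

theorem kill_R1 {A B : M2} {a b u : ℝ} (hA : A.det = 1) (hB : B.det = 1)
    (ha : A.trace = a) (hb : B.trace = b) (hu : (A * B).trace = u)
    (h1 : 0 ≤ u * (a * b * u - a ^ 2 - b ^ 2)) (h2 : 0 < a * b) (h3 : 0 ≤ b * (b * u - a)) :
    ¬ Alive A B [false, true, true, false, false, true] := by
  rintro ⟨α, β, h⟩
  have k1 := h [false, false, true, true, false, true] (by decide) (by decide)
  have k2 := h [false, true, false, true, true, false] (by decide) (by decide)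
  have k3 := h [true, false, false, true, false, true] (by decide) (by decide)
  simp only [val_W hA hB ha hb hu, cf, stA, stB] at k1 k2 k3
  set F0 := val α β 1
  set F1 := val α β A
  set F2 := val α β B
  set F3 := val α β (A * B)
  have e1 := mul_nonneg h1 (sub_pos.2 k1).le
  have e2 := mul_pos h2 (sub_pos.2 k2)
  have e3 := mul_nonneg h3 (sub_pos.2 k3).le
  linarith

theorem kill_R2 {A B : M2} {a b u : ℝ} (hA : A.det = 1) (hB : B.det = 1)
    (ha : A.trace = a) (hb : B.trace = b) (hu : (A * B).trace = u)
    (h1 : 0 < a) (h2 : 0 ≤ (b * u - a) * (a * b * u + 1)) (h3 : 0 ≤ a * (a ^ 2 - a * b * u - 1)) :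
    ¬ Alive A B [true, false, true, false, false, true, true] := by
  rintro ⟨α, β, h⟩
  have k1 := h [false, false, true, true, false, true, true] (by decide) (by decide)
  have k2 := h [true, false, true, true, false, false, true] (by decide) (by decide)
  have k3 := h [true, false, true, true, false, true, false] (by decide) (by decide)
  simp only [val_W hA hB ha hb hu, cf, stA, stB] at k1 k2 k3
  set F0 := val α β 1
  set F1 := val α β A
  set F2 := val α β B
  set F3 := val α β (A * B)
  have e1 := mul_pos h1 (sub_pos.2 k1)
  have e2 := mul_nonneg h2 (sub_pos.2 k2).le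
  have e3 := mul_nonneg h3 (sub_pos.2 k3).le
  linarith

theorem kill_R3 {A B : M2} {a b u : ℝ} (hA : A.det = 1) (hB : B.det = 1)
    (ha : A.trace = a) (hb : B.trace = b) (hu : (A * B).trace = u)
    (h1 : (a * u - b) * (a ^ 2 * u ^ 2 - a ^ 2 - a * b * u - u ^ 2) ≤ 0) (h2 : a * u < 0)
    (h3 : u * (a * u ^ 2 - a - b * u) ≤ 0) :
    ¬ Alive A B [false, true, false, true, false, false, false, true] := by
  rintro ⟨α, β, h⟩
  have k1 := h [false, false, true, false, true, false, false, true] (by decide) (by decide)
  have k2 := h [false, true, false, false, true, false, true, false] (by decide) (by decide)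
  have k3 := h [true, false, false, false, true, false, false, true] (by decide) (by decide)
  simp only [val_W hA hB ha hb hu, cf, stA, stB] at k1 k2 k3
  set F0 := val α β 1
  set F1 := val α β A
  set F2 := val α β B
  set F3 := val α β (A * B)
  have e1 := mul_nonneg (neg_nonneg.2 h1) (sub_pos.2 k1).le
  have e2 := mul_pos (neg_pos.2 h2) (sub_pos.2 k2)
  have e3 := mul_nonneg (neg_nonneg.2 h3) (sub_pos.2 k3).le
  linarith

theorem kill_trace {A B : M2} {a b u : ℝ} (hA : A.det = 1) (hB : B.det = 1)
    (ha : A.trace = 0) (hb : B.trace = b) (hu : (A * B).trace = u) :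
    ¬ Alive A B [false, false, true] := by
  rintro ⟨α, β, h⟩
  have k1 := h [true, false, false] (by decide) (by decide)
  simp only [val_W hA hB ha hb hu, cf, stA, stB] at k1
  linarith

theorem kill_comm {A B : M2} (hAB : A * B = B * A) : ¬ Alive A B [false, true] := by
  rintro ⟨α, β, h⟩
  have k1 := h [true, false] (by decide) (by decide)
  simp only [W_false, W_true, W_nil, mul_one, hAB] at k1
  exact lt_irrefl _ k1


/-- the determinants are positive -/
theorem kill_det {A B : M2} (hB : B.det ≤ 0) :
    ¬ Alive A B [true, true, false, true, true] := by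
  rintro ⟨α, β, h⟩
  have k1 := h [true, false, true, true, true] (by decide) (by decide)
  have k2 := h [true, true, true, false, true] (by decide) (by decide)
  have k3 := h [false, true, true, true, true] (by decide) (by decide)
  have k4 := h [true, true, true, true, false] (by decide) (by decide)
  simp only [W_eq_comb, val_comb, cf, stA, stB] at k1 k2 k3 k4
  set F0 := val α β 1
  set F1 := val α β A
  set F2 := val α β B
  set F3 := val α β (A * B)
  set a := A.trace
  set b := B.trace
  set u := (A * B).trace
  set dA := A.det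
  set D := B.det
  -- `f (J)`, `f (B J)`, `f (J B)`
  obtain ⟨p, hp⟩ : ∃ p, p = 2 * F3 - a * F2 - b * F1 - (u - a * b) * F0 := ⟨_, rfl⟩
  obtain ⟨q, hq⟩ : ∃ q, q = (-b * (u - a * b) - a * D) * F0 + (-b ^ 2 + 2 * D) * F1 + (u - a * b) * F2 +
    b * F3 := ⟨_, rfl⟩
  obtain ⟨r, hr⟩ : ∃ r, r = b * p - q := ⟨_, rfl⟩
  have e1 : D * r < 0 := by rw [hr, hp, hq]; linarith
  have e2 : 0 < D * q := by rw [hq]; linarith
  have e3 : b ^ 2 * r < D * (q + r) := by rw [hr, hp, hq]; linarith
  have e4 : D * (q + r) < b ^ 2 * q := by rw [hr, hp, hq]; linarith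
  have hD : D < 0 := by
    rcases hB.lt_or_eq with h | h
    · exact h
    · rw [h] at e1; linarith
  have hr0 : 0 < r := by
    by_contra hc
    have := mul_nonneg_of_nonpos_of_nonpos hD.le (not_lt.1 hc)
    linarith
  have hq0 : q < 0 := by
    by_contra hc
    have := mul_nonpos_of_nonpos_of_nonneg hD.le (not_lt.1 hc)
    linarith
  have h1 : q + r < 0 := by
    by_contra hc
    have := mul_nonpos_of_nonpos_of_nonneg hD.le (not_lt.1 hc)
    have := mul_nonneg (sq_nonneg b) hr0.le
    linarith
  have h2 := mul_nonneg_of_nonpos_of_nonpos hD.le h1.le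
  have := mul_nonneg (sq_nonneg b) (neg_nonneg.2 hq0.le)
  nlinarith

/-- the basic identity -/
theorem basic (α β : Fin 2 → ℝ) (P Q : M2) (hP : P.det = 1) (hQ : Q.det = 1) :
    (4 - P.trace ^ 2) * (val α β Q * (Q.trace * val α β 1 - val α β Q)) +
      (4 - Q.trace ^ 2) * (val α β P * (P.trace * val α β 1 - val α β P)) -
      (P.trace * Q.trace - 2 * (P * Q).trace) *
        (val α β P * (Q.trace * val α β 1 - val α β Q) + val α β Q * (P.trace * val α β 1 - val α β P)) =
    (4 - (P.trace * Q.trace - (P * Q).trace) ^ 2) * val α β 1 ^ 2 + val α β (P * Q - Q * P) ^ 2 := by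
  have key : (4 * P.det - P.trace ^ 2) * (val α β Q * (Q.trace * val α β 1 - val α β Q)) +
      (4 * Q.det - Q.trace ^ 2) * (val α β P * (P.trace * val α β 1 - val α β P)) -
      (P.trace * Q.trace - 2 * (P * Q).trace) *
        (val α β P * (Q.trace * val α β 1 - val α β Q) + val α β Q * (P.trace * val α β 1 - val α β P)) =
    (4 * P.det * Q.det - (P.trace * Q.trace - (P * Q).trace) ^ 2) * val α β 1 ^ 2 +
      val α β (P * Q - Q * P) ^ 2 := by
    simp only [val, dotProduct, mulVec, Fin.sum_univ_two, Matrix.trace_fin_two, Matrix.det_fin_two,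
      Matrix.mul_apply, Matrix.sub_apply, Matrix.one_apply_eq, Matrix.one_apply_ne (by decide : (0 : Fin 2) ≠ 1),
      Matrix.one_apply_ne (by decide : (1 : Fin 2) ≠ 0)]
    ring
  rw [hP, hQ] at key
  linarith

/-- the basic identity with names: `x = g P`, `y = g P⁻¹`, `x' = g Q`, `y' = g Q⁻¹`, `m = tr (P Q⁻¹)` -/
theorem basic' {α β : Fin 2 → ℝ} {P Q : M2} {p q m G x y x' y' : ℝ} (hP : P.det = 1) (hQ : Q.det = 1)
    (hp : P.trace = p) (hq : Q.trace = q) (hm : (P * Q).trace = p * q - m) (hG : val α β 1 = G)
    (hx : val α β P = x) (hx' : val α β Q = x') (hy : y = p * G - x) (hy' : y' = q * G - x') :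
    ∃ K : ℝ, (4 - p ^ 2) * (x' * y') + (4 - q ^ 2) * (x * y) - (2 * m - p * q) * (x * y' + x' * y) =
      (4 - m ^ 2) * G ^ 2 + K ^ 2 := by
  have h := basic α β P Q hP hQ
  rw [hp, hq, hm, hG, hx, hx'] at h
  refine ⟨val α β (P * Q - Q * P), ?_⟩
  rw [hy, hy']
  linarith

theorem val_one_mul (α β : Fin 2 → ℝ) (J M : M2) : val α (J *ᵥ β) M = val α β (M * J) := by
  simp only [val, mulVec_mulVec]

theorem inv_mul' {P : M2} {p : ℝ} (hP : P.det = 1) (hp : P.trace = p) : (p • (1 : M2) - P) * P = 1 := by
  subst hp
  rw [Matrix.det_fin_two] at hP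
  ext i j
  fin_cases i <;> fin_cases j <;>
    simp [Matrix.mul_apply, Fin.sum_univ_two, Matrix.trace_fin_two] <;> linarith

theorem mul_inv' {P : M2} {p : ℝ} (hP : P.det = 1) (hp : P.trace = p) : P * (p • (1 : M2) - P) = 1 := by
  have := inv_mul' hP hp
  rw [sub_mul, smul_mul_assoc, one_mul] at this
  rw [mul_sub, mul_smul_comm, mul_one]
  exact this

theorem det_inv' {P : M2} {p : ℝ} (hP : P.det = 1) (hp : P.trace = p) : (p • (1 : M2) - P).det = 1 := by
  have := congrArg Matrix.det (inv_mul' hP hp)
  rwa [det_mul, hP, mul_one, det_one] at this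

theorem sq_eq {P : M2} {p : ℝ} (hP : P.det = 1) (hp : P.trace = p) : P * P = p • P - 1 := by
  have := inv_mul' hP hp
  rw [sub_mul, smul_mul_assoc, one_mul] at this
  rw [← this]; abel

theorem trace_sq {P : M2} {p : ℝ} (hP : P.det = 1) (hp : P.trace = p) : (P * P).trace = p ^ 2 - 2 := by
  rw [sq_eq hP hp, trace_sub, trace_smul, hp, trace_one, smul_eq_mul]
  simp; ring

theorem trace_ABA {A B : M2} {a b u : ℝ} (hA : A.det = 1) 
    (ha : A.trace = a) (hb : B.trace = b) (hu : (A * B).trace = u) : (A * B * A).trace = a * u - b := by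
  rw [trace_mul_comm, ← mul_assoc, sq_eq hA ha, sub_mul, smul_mul_assoc, one_mul, trace_sub, trace_smul, hu, hb,
    smul_eq_mul]

/-- the word `01010` -/
theorem kill_K1 {A B : M2} {a b u : ℝ} (hA : A.det = 1) (hB : B.det = 1)
    (ha : A.trace = a) (hb : B.trace = b) (hu : (A * B).trace = u)
    (h1 : a ^ 2 ≤ 4) (h2 : b ^ 2 < 4) (h3 : (a * u - b) ^ 2 ≤ 4)
    (h4 : b * (a * u - b) ≤ 2 * a ^ 2 - 4) :
    ¬ Alive A B [false, true, false, true, false] := by
  rintro ⟨α, β, h⟩
  have k1 := h [true, false, false, true, false] (by decide) (by decide)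
  have k2 := h [false, false, true, true, false] (by decide) (by decide)
  have k3 := h [false, true, true, false, false] (by decide) (by decide)
  have k4 := h [false, true, false, false, true] (by decide) (by decide)
  have hQ1 : (A * B * (a • 1 - A)).trace = b := by
    rw [trace_mul_comm, ← mul_assoc, inv_mul' hA ha, one_mul, hb]
  have hQ2 : (A * B * A).trace = a * u - b := trace_ABA hA ha hb hu
  have hm : (A * B * (a • 1 - A) * (A * B * A)).trace = b * (a * u - b) - (a ^ 2 - 2) := by
    have e : A * B * (a • 1 - A) * (A * B * A) = A * (B * B) * A := by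
      calc A * B * (a • 1 - A) * (A * B * A) = A * B * ((a • 1 - A) * A) * (B * A) := by
            simp only [mul_assoc]
        _ = A * (B * B) * A := by rw [inv_mul' hA ha]; simp only [mul_assoc, mul_one]
    rw [e, sq_eq hB hb, mul_sub, mul_smul_comm, mul_one, sub_mul, smul_mul_assoc, trace_sub, trace_smul, hQ2,
      trace_sq hA ha, smul_eq_mul]
  have d1 : (A * B * (a • 1 - A)).det = 1 := by rw [det_mul, det_mul, hA, hB, det_inv' hA ha]; norm_num
  have d2 : (A * B * A).det = 1 := by rw [det_mul, det_mul, hA, hB]; norm_num
  obtain ⟨K, hK⟩ := basic' (α := α) (β := (A * B - B * A) *ᵥ β) (m := a ^ 2 - 2) d1 d2 hQ1 hQ2 hm rfl rfl rfl rfl rfl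
  simp only [val_one_mul] at hK
  have v1 : val α β (1 * (A * B - B * A)) = val α β (W A B [false, true]) - val α β (W A B [true, false]) := by
    rw [one_mul, val_sub]; simp only [W_false, W_true, W_nil, mul_one]
  have v3 : val α β (A * B * A * (A * B - B * A)) = val α β (W A B [false, true, false, false, true]) -
      val α β (W A B [false, true, false, true, false]) := by
    rw [mul_sub, val_sub]; simp only [W_false, W_true, W_nil, mul_one, mul_assoc]
  have v2 : val α β (A * B * (a • 1 - A) * (A * B - B * A)) =
      a * (val α β (W A B [false, true, false, true]) - val α β (W A B [false, true, true, false])) -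
      (val α β (W A B [false, true, false, false, true]) - val α β (W A B [false, true, false, true, false])) := by
    have e : A * B * (a • 1 - A) = a • (A * B) - A * B * A := by rw [mul_sub, mul_smul_comm, mul_one]
    rw [e, sub_mul, smul_mul_assoc, val_sub, val_smul, v3, mul_sub (A * B), val_sub]
    simp only [W_false, W_true, W_nil, mul_one, mul_assoc]
  have q1 : (a * u - b) * (val α β (W A B [false, true]) - val α β (W A B [true, false])) -
      (val α β (W A B [false, true, false, false, true]) - val α β (W A B [false, true, false, true, false])) =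
      val α β (W A B [false, true, false, true, false]) - val α β (W A B [true, false, false, true, false]) := by
    simp only [val_W hA hB ha hb hu, cf, stA, stB]; ring
  have q3 : a * (val α β (W A B [false, true, false, true]) - val α β (W A B [false, true, true, false])) -
      (val α β (W A B [false, true, false, false, true]) - val α β (W A B [false, true, false, true, false])) =
      val α β (W A B [false, true, false, true, false]) - val α β (W A B [false, true, true, false, false]) := by
    simp only [val_W hA hB ha hb hu, cf, stA, stB]; ring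
  have q2 : b * (val α β (W A B [false, true]) - val α β (W A B [true, false])) -
      (val α β (W A B [false, true, false, true, false]) - val α β (W A B [false, true, true, false, false])) =
      -(val α β (W A B [false, true, false, true, false]) - val α β (W A B [false, false, true, true, false])) := by
    simp only [val_W hA hB ha hb hu, cf, stA, stB]; ring
  rw [v1, v2, v3, q1, q3, q2] at hK
  have e1 := sub_pos.2 k1
  have e2 := sub_pos.2 k2
  have e3 := sub_pos.2 k3
  have e4 := sub_pos.2 k4
  have e4' : val α β (W A B [false, true, false, false, true]) - val α β (W A B [false, true, false, true, false]) =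
    -(val α β (W A B [false, true, false, true, false]) - val α β (W A B [false, true, false, false, true])) := by ring
  rw [e4'] at hK
  generalize val α β (W A B [false, true, false, true, false]) - val α β (W A B [true, false, false, true, false]) = E1 at *
  generalize val α β (W A B [false, true, false, true, false]) - val α β (W A B [false, false, true, true, false]) = E2 at *
  generalize val α β (W A B [false, true, false, true, false]) - val α β (W A B [false, true, true, false, false]) = E3 at *
  generalize val α β (W A B [false, true, false, true, false]) - val α β (W A B [false, true, false, false, true]) = E4 at *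
  generalize val α β (W A B [false, true]) - val α β (W A B [true, false]) = G at *
  have t1 := mul_pos (sub_pos.2 h2) (mul_pos e1 e4)
  have t2 := mul_nonneg (sub_nonneg.2 h3) (mul_pos e2 e3).le
  have t3 := mul_nonneg (sub_nonneg.2 h4) (add_pos (mul_pos e1 e3) (mul_pos e2 e4)).le
  have t4 : 0 ≤ (4 - (a ^ 2 - 2) ^ 2) * G ^ 2 := by
    apply mul_nonneg _ (sq_nonneg _)
    nlinarith [sq_nonneg a]
  nlinarith [sq_nonneg K]

/-- the word `01110` -/
theorem kill_E1 {A B : M2} {a b u : ℝ} (hA : A.det = 1) (hB : B.det = 1)
    (ha : A.trace = a) (hb : B.trace = b) (hu : (A * B).trace = u)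
    (h0 : 0 < b) (h1 : b ≤ 1) (h2 : a ^ 2 < 4) (h3 : u ^ 2 ≤ 4) (h4 : a * u ≤ 2 * b) :
    ¬ Alive A B [false, true, true, true, false] := by
  rintro ⟨α, β, h⟩
  have k1 := h [true, true, true, false, false] (by decide) (by decide)
  have k2 := h [false, false, true, true, true] (by decide) (by decide)
  have k3 := h [true, true, false, true, false] (by decide) (by decide)
  have k4 := h [false, true, false, true, true] (by decide) (by decide)
  have hm : (A * (A * B)).trace = a * u - b := by
    rw [trace_mul_comm, trace_ABA hA ha hb hu]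
  have d2 : (A * B).det = 1 := by rw [det_mul, hA, hB]; norm_num
  obtain ⟨K, hK⟩ := basic' (α := α) (β := (A * B - B * A) *ᵥ β) (m := b) hA d2 ha hu hm rfl rfl rfl rfl rfl
  simp only [val_one_mul] at hK
  have v1 : val α β (1 * (A * B - B * A)) = val α β (W A B [false, true]) - val α β (W A B [true, false]) := by
    rw [one_mul, val_sub]; simp only [W_false, W_true, W_nil, mul_one]
  have v2 : val α β (A * (A * B - B * A)) = val α β (W A B [false, false, true]) -
      val α β (W A B [false, true, false]) := by
    rw [mul_sub, val_sub]; simp only [W_false, W_true, W_nil, mul_one, mul_assoc]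
  have v3 : val α β (A * B * (A * B - B * A)) = val α β (W A B [false, true, false, true]) -
      val α β (W A B [false, true, true, false]) := by
    rw [mul_sub, val_sub]; simp only [W_false, W_true, W_nil, mul_one, mul_assoc]
  rw [v1, v2, v3] at hK
  obtain ⟨G, hG⟩ : ∃ G, G = val α β (W A B [false, true]) - val α β (W A B [true, false]) := ⟨_, rfl⟩
  obtain ⟨x, hx⟩ : ∃ x, x = val α β (W A B [false, false, true]) -
      val α β (W A B [false, true, false]) := ⟨_, rfl⟩
  obtain ⟨x', hx'⟩ : ∃ x', x' = val α β (W A B [false, true, false, true]) -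
      val α β (W A B [false, true, true, false]) := ⟨_, rfl⟩
  have q1 : val α β (W A B [false, true, true, true, false]) - val α β (W A B [true, true, true, false, false]) =
      (b ^ 2 - 1) * (a * G - x) := by
    rw [hG, hx]; simp only [val_W hA hB ha hb hu, cf, stA, stB]; ring
  have q2 : val α β (W A B [false, true, true, true, false]) - val α β (W A B [false, false, true, true, true]) =
      -((b ^ 2 - 1) * x) := by
    rw [hx]; simp only [val_W hA hB ha hb hu, cf, stA, stB]; ring
  have q3 : val α β (W A B [false, true, true, true, false]) - val α β (W A B [true, true, false, true, false]) =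
      b * (u * G - x') := by
    rw [hG, hx']; simp only [val_W hA hB ha hb hu, cf, stA, stB]; ring
  have q4 : val α β (W A B [false, true, true, true, false]) - val α β (W A B [false, true, false, true, true]) =
      -(b * x') := by
    rw [hx']; simp only [val_W hA hB ha hb hu, cf, stA, stB]; ring
  rw [← hG, ← hx, ← hx'] at hK
  have e1 := sub_pos.2 k1
  have e2 := sub_pos.2 k2
  have e3 := sub_pos.2 k3
  have e4 := sub_pos.2 k4
  rw [q1] at e1
  rw [q2] at e2
  rw [q3] at e3
  rw [q4] at e4
  have hb1 : b ^ 2 - 1 ≤ 0 := by nlinarith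
  have x0 : 0 < x := by
    by_contra hc
    have := mul_nonneg_of_nonpos_of_nonpos hb1 (not_lt.1 hc)
    linarith
  have y0 : a * G - x < 0 := by
    by_contra hc
    have := mul_nonpos_of_nonpos_of_nonneg hb1 (not_lt.1 hc)
    linarith
  have x'0 : x' < 0 := by
    by_contra hc
    have := mul_nonneg h0.le (not_lt.1 hc)
    linarith
  have y'0 : 0 < u * G - x' := by
    by_contra hc
    have := mul_nonpos_of_nonneg_of_nonpos h0.le (not_lt.1 hc)
    linarith
  generalize a * G - x = y at *
  generalize u * G - x' = y' at *
  have t1 := mul_pos (sub_pos.2 h2) (mul_pos (neg_pos.2 x'0) y'0)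
  have t2 := mul_nonneg (sub_nonneg.2 h3) (mul_pos x0 (neg_pos.2 y0)).le
  have t3 := mul_nonneg (sub_nonneg.2 h4) (add_pos (mul_pos x0 y'0) (mul_pos (neg_pos.2 x'0) (neg_pos.2 y0))).le
  have t4 : 0 ≤ (4 - b ^ 2) * G ^ 2 := by
    apply mul_nonneg _ (sq_nonneg _)
    nlinarith
  nlinarith [sq_nonneg K]

/-- the word `0101010` -/
theorem kill_E2 {A B : M2} {a b u : ℝ} (hA : A.det = 1) (hB : B.det = 1)
    (ha : A.trace = a) (hb : B.trace = b) (hu : (A * B).trace = u)
    (ha0 : 0 < a) (hb0 : 0 < b) (h1 : -1 ≤ u) (h2 : u ≤ 0) (h3 : a ^ 2 < 4) (h4 : b ^ 2 ≤ 4) :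
    ¬ Alive A B [false, true, false, true, false, true, false] := by
  rintro ⟨α, β, h⟩
  have k1 := h [true, false, true, false, true, false, false] (by decide) (by decide)
  have k2 := h [false, false, true, false, true, false, true] (by decide) (by decide)
  have k3 := h [false, false, true, false, true, true, false] (by decide) (by decide)
  have k4 := h [false, true, true, false, true, false, false] (by decide) (by decide)
  have hQ1 : (A * B * (a • 1 - A)).trace = b := by
    rw [trace_mul_comm, ← mul_assoc, inv_mul' hA ha, one_mul, hb]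
  have d1 : (A * B * (a • 1 - A)).det = 1 := by rw [det_mul, det_mul, hA, hB, det_inv' hA ha]; norm_num
  have hm : (A * (A * B * (a • 1 - A))).trace = a * b - (a * b - u) := by
    rw [trace_mul_comm, mul_assoc (A * B), inv_mul' hA ha, mul_one, hu]; ring
  obtain ⟨K, hK⟩ := basic' (α := α) (β := (A * B - B * A) *ᵥ β) (m := a * b - u) hA d1 ha hQ1 hm rfl rfl rfl rfl rfl
  simp only [val_one_mul] at hK
  have v1 : val α β (1 * (A * B - B * A)) = val α β (W A B [false, true]) - val α β (W A B [true, false]) := by
    rw [one_mul, val_sub]; simp only [W_false, W_true, W_nil, mul_one]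
  have v2 : val α β (A * (A * B - B * A)) = val α β (W A B [false, false, true]) -
      val α β (W A B [false, true, false]) := by
    rw [mul_sub, val_sub]; simp only [W_false, W_true, W_nil, mul_one, mul_assoc]
  have v3 : val α β (A * B * (a • 1 - A) * (A * B - B * A)) =
      a * (val α β (W A B [false, true, false, true]) - val α β (W A B [false, true, true, false])) -
      (val α β (W A B [false, true, false, false, true]) - val α β (W A B [false, true, false, true, false])) := by
    have e : A * B * (a • 1 - A) = a • (A * B) - A * B * A := by rw [mul_sub, mul_smul_comm, mul_one]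
    rw [e, sub_mul, smul_mul_assoc, val_sub, val_smul, mul_sub (A * B), val_sub, mul_sub (A * B * A), val_sub]
    simp only [W_false, W_true, W_nil, mul_one, mul_assoc]
  rw [v1, v2, v3] at hK
  obtain ⟨G, hG⟩ : ∃ G, G = val α β (W A B [false, true]) - val α β (W A B [true, false]) := ⟨_, rfl⟩
  obtain ⟨x, hx⟩ : ∃ x, x = val α β (W A B [false, false, true]) -
      val α β (W A B [false, true, false]) := ⟨_, rfl⟩
  obtain ⟨x', hx'⟩ : ∃ x', x' = a * (val α β (W A B [false, true, false, true]) -
      val α β (W A B [false, true, true, false])) -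
      (val α β (W A B [false, true, false, false, true]) - val α β (W A B [false, true, false, true, false])) :=
    ⟨_, rfl⟩
  have q1 : val α β (W A B [false, true, false, true, false, true, false]) -
      val α β (W A B [true, false, true, false, true, false, false]) = (u ^ 2 - 1) * (a * G - x) := by
    rw [hG, hx]; simp only [val_W hA hB ha hb hu, cf, stA, stB]; ring
  have q2 : val α β (W A B [false, true, false, true, false, true, false]) -
      val α β (W A B [false, false, true, false, true, false, true]) = -((u ^ 2 - 1) * x) := by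
    rw [hx]; simp only [val_W hA hB ha hb hu, cf, stA, stB]; ring
  have q3 : val α β (W A B [false, true, false, true, false, true, false]) -
      val α β (W A B [false, false, true, false, true, true, false]) = -(u * (b * G - x')) := by
    rw [hG, hx']; simp only [val_W hA hB ha hb hu, cf, stA, stB]; ring
  have q4 : val α β (W A B [false, true, false, true, false, true, false]) -
      val α β (W A B [false, true, true, false, true, false, false]) = u * x' := by
    rw [hx']; simp only [val_W hA hB ha hb hu, cf, stA, stB]; ring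
  rw [← hG, ← hx, ← hx'] at hK
  have e1 := sub_pos.2 k1
  have e2 := sub_pos.2 k2
  have e3 := sub_pos.2 k3
  have e4 := sub_pos.2 k4
  rw [q1] at e1
  rw [q2] at e2
  rw [q3] at e3
  rw [q4] at e4
  have hu1 : u ^ 2 - 1 ≤ 0 := by nlinarith
  have x0 : 0 < x := by
    by_contra hc
    have := mul_nonneg_of_nonpos_of_nonpos hu1 (not_lt.1 hc)
    linarith
  have y0 : a * G - x < 0 := by
    by_contra hc
    have := mul_nonpos_of_nonpos_of_nonneg hu1 (not_lt.1 hc)
    linarith
  have x'0 : x' < 0 := by
    by_contra hc
    have := mul_nonpos_of_nonpos_of_nonneg h2 (not_lt.1 hc)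
    linarith
  have y'0 : 0 < b * G - x' := by
    by_contra hc
    have := mul_nonneg_of_nonpos_of_nonpos h2 (not_lt.1 hc)
    linarith
  have G1 : (a * G - x) + x = a * G := by ring
  have G2 : (b * G - x') + x' = b * G := by ring
  generalize a * G - x = y at *
  generalize b * G - x' = y' at *
  have t1 := mul_pos (sub_pos.2 h3) (mul_pos (neg_pos.2 x'0) y'0)
  have t2 := mul_nonneg (sub_nonneg.2 h4) (mul_pos x0 (neg_pos.2 y0)).le
  have s1 := mul_pos x0 y'0
  have s2 := mul_pos (neg_pos.2 x'0) (neg_pos.2 y0)
  have hab := mul_pos ha0 hb0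
  rcases le_total (a * b - u) 2 with hm2 | hm2
  · have t3 : 0 ≤ (2 * (a * b - u) - a * b) * (x * y' + x' * y) := by
      apply mul_nonneg
      · linarith
      · nlinarith
    have t4 : 0 ≤ (4 - (a * b - u) ^ 2) * G ^ 2 := by
      apply mul_nonneg _ (sq_nonneg _)
      nlinarith
    nlinarith [sq_nonneg K]
  · -- eliminate `G`
    have hG2 : a * b * G ^ 2 = (x + y) * (x' + y') := by
      linear_combination (-(b * G)) * G1 - (x + y) * G2
    have key : a * b * ((4 - a ^ 2) * (x' * y') + (4 - b ^ 2) * (x * y)) +
        ((u) ^ 2 - 4) * (x * y' + x' * y) + ((a * b - u) ^ 2 - 4) * (x * x' + y * y') = a * b * K ^ 2 := by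
      linear_combination (a * b) * hK + (4 - (a * b - u) ^ 2) * hG2
    have r1 := mul_pos hab (add_pos_of_pos_of_nonneg t1 t2)
    have r2 : 0 ≤ (4 - u ^ 2) * (x * y' + x' * y) := by
      apply mul_nonneg
      · nlinarith
      · nlinarith
    have r3 : 0 ≤ ((a * b - u) ^ 2 - 4) * -(x * x' + y * y') := by
      apply mul_nonneg
      · nlinarith
      · nlinarith [mul_pos x0 (neg_pos.2 x'0), mul_pos (neg_pos.2 y0) y'0]
    have r4 := mul_nonneg hab.le (sq_nonneg K)
    nlinarith

end Pool.Agent.Q266.GPF
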