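import Pool.Agent.Q266.GPF.Tree

/-!
# No pair of real `2 × 2` matrices keeps all words of length at most `32768` alive
-/

set_option autoImplicit false

namespace Pool.Agent.Q266.GPF

open Matrix

theorem Rich.swap {N : ℕ} {A B : M2} (h : Rich N A B) : Rich N B A := by
  have h' : Rich (1 * N) A B := by rwa [one_mul]
  have := h'.subst (x := true) (y := false) (p := []) (q := []) (by decide) (by simp) (by simp)
  simpa [W_true, W_false, W_nil] using this

theorem det_pos_right {A B : M2} (h : Rich 8 A B) : 0 < B.det := by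
  by_contra hc
  exact kill_det (not_lt.1 hc) (h _ (by simp))

theorem trace_ne_left {A B : M2} (h : Rich 8 A B) (hA : A.det = 1) (hB : B.det = 1) : A.trace ≠ 0 :=
  fun h0 => kill_trace hA hB h0 rfl rfl (a := 0) (h _ (by simp))

theorem PR.abs {N : ℕ} {a b u : ℝ} (h : PR N a b u) (ha : a ≠ 0) (hb : b ≠ 0) :
    ∃ a' b' u' : ℝ, 0 < a' ∧ 0 < b' ∧ PR N a' b' u' := by
  rcases ha.lt_or_gt with ha | ha <;> rcases hb.lt_or_gt with hb | hb
  · exact ⟨-a, -b, _, by linarith, by linarith, h.neg_left.neg⟩
  · exact ⟨-a, b, _, by linarith, by linarith, h.neg_left⟩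
  · exact ⟨a, -b, _, by linarith, by linarith, h.neg⟩
  · exact ⟨a, b, _, by linarith, by linarith, h⟩

theorem det_normal {A : M2} (h : 0 < A.det) : ((√A.det)⁻¹ • A).det = 1 := by
  rw [det_smul, Fintype.card_fin, inv_pow, Real.sq_sqrt h.le, inv_mul_cancel₀ h.ne']

theorem not_rich (A B : M2) : ¬ Rich 32768 A B := by
  intro h
  have hB := det_pos_right (h.mono (by norm_num))
  have hA := det_pos_right (h.swap.mono (by norm_num))
  have h1 := h.smul (c := (√A.det)⁻¹) (d := (√B.det)⁻¹)
    (inv_ne_zero (Real.sqrt_pos.2 hA).ne') (inv_ne_zero (Real.sqrt_pos.2 hB).ne')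
  have dA := det_normal hA
  have dB := det_normal hB
  have tA := trace_ne_left (h1.mono (by norm_num)) dA dB
  have tB := trace_ne_left (h1.swap.mono (by norm_num)) dB dA
  obtain ⟨a, b, u, ha, hb, hp⟩ := PR.abs ⟨_, _, h1, dA, dB, rfl, rfl, rfl⟩ tA tB
  exact main hp ha hb

/-- some word contains all words of length at most `N` -/
theorem exists_universal (N : ℕ) : ∃ x : List Bool, ∀ w : List Bool, w.length ≤ N → w <:+: x := by
  have hf : {l : List Bool | l.length ≤ N}.Finite := List.finite_length_le Bool N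
  refine ⟨hf.toFinset.toList.flatten, fun w hw => List.infix_of_mem_flatten ?_⟩
  simpa using hw

end Pool.Agent.Q266.GPF
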