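import Pool.Agent.Q266.GPF.Base

/-!
# Substitutions and scalings
-/

set_option autoImplicit false

namespace Pool.Agent.Q266.GPF

open Matrix

/-- the substitution `false ↦ p`, `true ↦ q` -/
def sb (p q : List Bool) (w : List Bool) : List Bool := w.flatMap (fun c => if c then q else p)

theorem sb_nil (p q : List Bool) : sb p q [] = [] := rfl

theorem sb_cons (p q : List Bool) (c : Bool) (w : List Bool) :
    sb p q (c :: w) = (if c then q else p) ++ sb p q w := by
  simp [sb]

theorem W_sb (A B : M2) (p q w : List Bool) :
    W A B (sb p q w) = W (W A B p) (W A B q) w := by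
  induction w with
  | nil => simp [sb_nil, W_nil]
  | cons c w ih =>
    rw [sb_cons, W_append, ih]
    cases c with
    | false => rw [W_false]; simp
    | true => rw [W_true]; simp

theorem sb_perm (p q : List Bool) {z w : List Bool} (h : z.Perm w) : (sb p q z).Perm (sb p q w) :=
  h.flatMap_right _

theorem sb_length (p q : List Bool) {k : ℕ} (hp : p.length ≤ k) (hq : q.length ≤ k) (w : List Bool) :
    (sb p q w).length ≤ k * w.length := by
  induction w with
  | nil => simp [sb_nil]
  | cons c w ih =>
    rw [sb_cons, List.length_append, List.length_cons, Nat.mul_succ]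
    have : (if c then q else p).length ≤ k := by cases c <;> simpa
    omega

theorem sb_inj {x y : Bool} {p q : List Bool} (hxy : x ≠ y) :
    Function.Injective (sb (x :: p) (y :: q)) := by
  intro w
  induction w with
  | nil =>
    intro z h
    cases z with
    | nil => rfl
    | cons d z =>
      rw [sb_nil, sb_cons] at h
      cases d <;> simp at h
  | cons c w ih =>
    intro z h
    cases z with
    | nil =>
      rw [sb_nil, sb_cons] at h
      cases c <;> simp at h
    | cons d z =>
      rw [sb_cons, sb_cons] at h
      cases c <;> cases d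
      · have := List.append_cancel_left h
        rw [ih this]
      · simp only [Bool.false_eq_true, if_false, if_true, List.cons_append, List.cons.injEq] at h
        exact absurd h.1 hxy
      · simp only [Bool.false_eq_true, if_false, if_true, List.cons_append, List.cons.injEq] at h
        exact absurd h.1.symm hxy
      · have := List.append_cancel_left h
        rw [ih this]

theorem Rich.mono {M N : ℕ} {A B : M2} (h : Rich N A B) (hMN : M ≤ N) : Rich M A B :=
  fun w hw => h w (hw.trans hMN)

theorem Rich.subst {N k : ℕ} {A B : M2} (h : Rich (k * N) A B) {x y : Bool} {p q : List Bool}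
    (hxy : x ≠ y) (hp : (x :: p).length ≤ k) (hq : (y :: q).length ≤ k) :
    Rich N (W A B (x :: p)) (W A B (y :: q)) := by
  intro w hw
  obtain ⟨α, β, h⟩ := h (sb (x :: p) (y :: q) w)
    ((sb_length _ _ hp hq w).trans (Nat.mul_le_mul_left k hw))
  refine ⟨α, β, fun z hz hne => ?_⟩
  have := h (sb (x :: p) (y :: q) z) (sb_perm _ _ hz) (fun e => hne (sb_inj hxy e))
  rwa [W_sb, W_sb] at this

theorem W_smul (A B : M2) (c d : ℝ) (w : List Bool) :
    W (c • A) (d • B) w = (c ^ w.count false * d ^ w.count true) • W A B w := by
  induction w with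
  | nil => simp [W_nil]
  | cons x w ih =>
    cases x with
    | false =>
      rw [W_false, ih, W_false, List.count_cons_self, List.count_cons_of_ne (by decide), smul_mul_smul_comm]
      congr 1
      ring
    | true =>
      rw [W_true, ih, W_true, List.count_cons_self, List.count_cons_of_ne (by decide), smul_mul_smul_comm]
      congr 1
      ring

theorem val_smul_left (α β : Fin 2 → ℝ) (c : ℝ) (M : M2) : val (c • α) β M = c * val α β M := by
  simp only [val, smul_dotProduct, smul_eq_mul]

theorem Rich.smul {N : ℕ} {A B : M2} (h : Rich N A B) {c d : ℝ} (hc : c ≠ 0) (hd : d ≠ 0) :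
    Rich N (c • A) (d • B) := by
  intro w hw
  obtain ⟨α, β, h⟩ := h w hw
  have hK : c ^ w.count false * d ^ w.count true ≠ 0 := mul_ne_zero (pow_ne_zero _ hc) (pow_ne_zero _ hd)
  refine ⟨(c ^ w.count false * d ^ w.count true)⁻¹ • α, β, fun z hz hne => ?_⟩
  rw [W_smul, W_smul, hz.count_eq, hz.count_eq, val_smul_left, val_smul_left, val_smul, val_smul,
    inv_mul_cancel_left₀ hK, inv_mul_cancel_left₀ hK]
  exact h z hz hne

end Pool.Agent.Q266.GPF
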