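import Pool.Agent.Q266.GPF.Kill
import Pool.Agent.Q266.GPF.Subst

/-!
# Pairs of matrices of determinant one with given traces
-/

set_option autoImplicit false

namespace Pool.Agent.Q266.GPF

open Matrix

/-- There are real matrices `A`, `B` of determinant `1` with the traces `a`, `b` and `tr (A B) = u`, such
that all words of length at most `N` are alive. -/
def PR (N : ℕ) (a b u : ℝ) : Prop :=
  ∃ A B : M2, Rich N A B ∧ A.det = 1 ∧ B.det = 1 ∧ A.trace = a ∧ B.trace = b ∧ (A * B).trace = u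

theorem PR.mono {M N : ℕ} {a b u : ℝ} (h : PR N a b u) (hMN : M ≤ N) : PR M a b u := by
  obtain ⟨A, B, h, h'⟩ := h
  exact ⟨A, B, h.mono hMN, h'⟩

/-- the trace of a word -/
def T (a b u : ℝ) (w : List Bool) : ℝ :=
  2 * (cf a b u 1 1 w).c0 + (cf a b u 1 1 w).c1 * a + (cf a b u 1 1 w).c2 * b + (cf a b u 1 1 w).c3 * u

theorem trace_W {A B : M2} {a b u : ℝ} (hA : A.det = 1) (hB : B.det = 1)
    (ha : A.trace = a) (hb : B.trace = b) (hu : (A * B).trace = u) (w : List Bool) :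
    (W A B w).trace = T a b u w := by
  rw [W_eq_comb, comb, trace_add, trace_add, trace_add, trace_smul, trace_smul, trace_smul, trace_smul,
    hA, hB, ha, hb, hu, trace_one, T]
  simp only [smul_eq_mul, Fintype.card_fin]
  push_cast
  ring

theorem det_W {A B : M2} (hA : A.det = 1) (hB : B.det = 1) (w : List Bool) : (W A B w).det = 1 := by
  induction w with
  | nil => simp [W_nil]
  | cons x w ih =>
    cases x with
    | false => rw [W_false, det_mul, hA, ih, one_mul]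
    | true => rw [W_true, det_mul, hB, ih, one_mul]

theorem PR.subst {N : ℕ} {a b u : ℝ} (h : PR (4 * N) a b u) {x y : Bool} {p q : List Bool}
    (hxy : x ≠ y) (hp : (x :: p).length ≤ 4) (hq : (y :: q).length ≤ 4) {a' b' u' : ℝ}
    (ha : T a b u (x :: p) = a') (hb : T a b u (y :: q) = b')
    (hu : T a b u (x :: p ++ y :: q) = u') : PR N a' b' u' := by
  obtain ⟨A, B, h, hA, hB, h1, h2, h3⟩ := h
  refine ⟨W A B (x :: p), W A B (y :: q), h.subst hxy hp hq, det_W hA hB _, det_W hA hB _, ?_, ?_, ?_⟩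
  · rw [trace_W hA hB h1 h2 h3, ha]
  · rw [trace_W hA hB h1 h2 h3, hb]
  · rw [← W_append, trace_W hA hB h1 h2 h3, hu]

section subs

variable {N : ℕ} {a b u : ℝ}

theorem PR.swap (h : PR (4 * N) a b u) : PR N b a u :=
  h.subst (x := true) (y := false) (p := []) (q := []) (by decide) (by simp) (by simp)
    (by simp only [T, cf, stA, stB]; ring) (by simp only [T, cf, stA, stB]; ring)
    (by simp only [T, cf, stA, stB, List.cons_append, List.nil_append]; ring)

theorem PR.AB_B (h : PR (4 * N) a b u) : PR N u b (b * u - a) :=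
  h.subst (x := false) (y := true) (p := [true]) (q := []) (by decide) (by simp) (by simp)
    (by simp only [T, cf, stA, stB]; ring) (by simp only [T, cf, stA, stB]; ring)
    (by simp only [T, cf, stA, stB, List.cons_append, List.nil_append]; ring)

theorem PR.A_BA (h : PR (4 * N) a b u) : PR N a u (a * u - b) :=
  h.subst (x := false) (y := true) (p := []) (q := [false]) (by decide) (by simp) (by simp)
    (by simp only [T, cf, stA, stB]; ring) (by simp only [T, cf, stA, stB]; ring)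
    (by simp only [T, cf, stA, stB, List.cons_append, List.nil_append]; ring)

theorem PR.B_AA (h : PR (4 * N) a b u) : PR N b (a ^ 2 - 2) (a * u - b) :=
  h.subst (x := true) (y := false) (p := []) (q := [false]) (by decide) (by simp) (by simp)
    (by simp only [T, cf, stA, stB]; ring) (by simp only [T, cf, stA, stB]; ring)
    (by simp only [T, cf, stA, stB, List.cons_append, List.nil_append]; ring)

theorem PR.A_BB (h : PR (4 * N) a b u) : PR N a (b ^ 2 - 2) (b * u - a) :=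
  h.subst (x := false) (y := true) (p := []) (q := [true]) (by decide) (by simp) (by simp)
    (by simp only [T, cf, stA, stB]; ring) (by simp only [T, cf, stA, stB]; ring)
    (by simp only [T, cf, stA, stB, List.cons_append, List.nil_append]; ring)

theorem PR.B_ABB (h : PR (4 * N) a b u) : PR N b (b * u - a) (b * (b * u - a) - u) :=
  h.subst (x := true) (y := false) (p := []) (q := [true, true]) (by decide) (by simp) (by simp)
    (by simp only [T, cf, stA, stB]; ring) (by simp only [T, cf, stA, stB]; ring)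
    (by simp only [T, cf, stA, stB, List.cons_append, List.nil_append]; ring)

theorem PR.B_ABAB (h : PR (4 * N) a b u) : PR N b (u ^ 2 - 2) (u * (b * u - a) - b) :=
  h.subst (x := true) (y := false) (p := []) (q := [true, false, true]) (by decide) (by simp) (by simp)
    (by simp only [T, cf, stA, stB]; ring) (by simp only [T, cf, stA, stB]; ring)
    (by simp only [T, cf, stA, stB, List.cons_append, List.nil_append]; ring)

theorem PR.neg (h : PR N a b u) : PR N a (-b) (-u) := by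
  obtain ⟨A, B, h, hA, hB, h1, h2, h3⟩ := h
  have := h.smul (c := 1) (d := -1) (by norm_num) (by norm_num)
  rw [one_smul] at this
  refine ⟨A, (-1 : ℝ) • B, this, hA, ?_, h1, ?_, ?_⟩
  · rw [det_smul, hB]; simp
  · rw [trace_smul, h2]; simp
  · rw [mul_smul_comm, trace_smul, h3]; simp

theorem PR.neg_left (h : PR N a b u) : PR N (-a) b (-u) := by
  obtain ⟨A, B, h, hA, hB, h1, h2, h3⟩ := h
  have := h.smul (c := -1) (d := 1) (by norm_num) (by norm_num)
  rw [one_smul] at this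
  refine ⟨(-1 : ℝ) • A, B, this, ?_, hB, ?_, h2, ?_⟩
  · rw [det_smul, hA]; simp
  · rw [trace_smul, h1]; simp
  · rw [smul_mul_assoc, trace_smul, h3]; simp

end subs

/-! ### the killed regions -/

section kills

variable {a b u : ℝ}

theorem PR.R1 (h : PR 8 a b u) (h1 : 0 ≤ u * (a * b * u - a ^ 2 - b ^ 2)) (h2 : 0 < a * b)
    (h3 : 0 ≤ b * (b * u - a)) : False := by
  obtain ⟨A, B, h, hA, hB, e1, e2, e3⟩ := h
  exact kill_R1 hA hB e1 e2 e3 h1 h2 h3 (h _ (by simp))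

theorem PR.R2 (h : PR 8 a b u) (h1 : 0 < a) (h2 : 0 ≤ (b * u - a) * (a * b * u + 1))
    (h3 : 0 ≤ a * (a ^ 2 - a * b * u - 1)) : False := by
  obtain ⟨A, B, h, hA, hB, e1, e2, e3⟩ := h
  exact kill_R2 hA hB e1 e2 e3 h1 h2 h3 (h _ (by simp))

theorem PR.R3 (h : PR 8 a b u) (ha : 2 ≤ a) (hb : -2 ≤ b) (hu : u ≤ -2) : False := by
  obtain ⟨A, B, h, hA, hB, e1, e2, e3⟩ := h
  refine kill_R3 hA hB e1 e2 e3 ?_ ?_ ?_ (h _ (by simp))
  · apply mul_nonpos_of_nonpos_of_nonneg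
    · nlinarith
    · have h1 : 0 ≤ (u ^ 2 - 4) * (a ^ 2 - 1) := by
        apply mul_nonneg <;> nlinarith
      have h2 : a * b * (-u) ≥ a * (-2) * (-u) := by
        have : 0 ≤ a * (-u) := by nlinarith
        nlinarith
      nlinarith [mul_nonneg (by linarith : (0:ℝ) ≤ a - 2) (by linarith : (0:ℝ) ≤ -u - 2)]
  · nlinarith
  · apply mul_nonpos_of_nonpos_of_nonneg
    · linarith
    · nlinarith [mul_nonneg (by linarith : (0:ℝ) ≤ a - 2) (by linarith : (0:ℝ) ≤ -u - 2),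
        mul_nonneg (by linarith : (0:ℝ) ≤ b + 2) (by linarith : (0:ℝ) ≤ -u),
        mul_nonneg (by linarith : (0:ℝ) ≤ a - 2) (by nlinarith : (0:ℝ) ≤ u ^ 2 - 4)]

theorem PR.K1 (h : PR 8 a b u) (h1 : a ^ 2 ≤ 4) (h2 : b ^ 2 < 4) (h3 : (a * u - b) ^ 2 ≤ 4)
    (h4 : b * (a * u - b) ≤ 2 * a ^ 2 - 4) : False := by
  obtain ⟨A, B, h, hA, hB, e1, e2, e3⟩ := h
  exact kill_K1 hA hB e1 e2 e3 h1 h2 h3 h4 (h _ (by simp))

theorem PR.E1 (h : PR 8 a b u) (h0 : 0 < b) (h1 : b ≤ 1) (h2 : a ^ 2 < 4) (h3 : u ^ 2 ≤ 4)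
    (h4 : a * u ≤ 2 * b) : False := by
  obtain ⟨A, B, h, hA, hB, e1, e2, e3⟩ := h
  exact kill_E1 hA hB e1 e2 e3 h0 h1 h2 h3 h4 (h _ (by simp))

theorem PR.E2 (h : PR 8 a b u) (ha0 : 0 < a) (hb0 : 0 < b) (h1 : -1 ≤ u) (h2 : u ≤ 0) (h3 : a ^ 2 < 4)
    (h4 : b ^ 2 ≤ 4) : False := by
  obtain ⟨A, B, h, hA, hB, e1, e2, e3⟩ := h
  exact kill_E2 hA hB e1 e2 e3 ha0 hb0 h1 h2 h3 h4 (h _ (by simp))

/-- if `A` is elliptic and `A`, `B` do not commute, the trace of the commutator is larger than `2` -/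
theorem PR.kappa (h : PR 8 a b u) (ha : a ^ 2 < 4) : 4 < a ^ 2 + b ^ 2 + u ^ 2 - a * b * u := by
  obtain ⟨A, B, h, hA, hB, e1, e2, e3⟩ := h
  by_contra hc
  apply kill_comm _ (h [false, true] (by simp))
  subst e1 e2 e3
  rw [det_fin_two] at hA hB
  simp only [trace_fin_two, mul_apply, Fin.sum_univ_two, not_lt] at hc ha
  obtain ⟨x, hx⟩ : ∃ x, x = A 0 1 * B 1 0 - A 1 0 * B 0 1 := ⟨_, rfl⟩
  obtain ⟨y, hy⟩ : ∃ y, y = (A 0 0 - A 1 1) * B 0 1 - A 0 1 * (B 0 0 - B 1 1) := ⟨_, rfl⟩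
  obtain ⟨z, hz⟩ : ∃ z, z = A 1 0 * (B 0 0 - B 1 1) - (A 0 0 - A 1 1) * B 1 0 := ⟨_, rfl⟩
  have hd : (A 0 0 - A 1 1) ^ 2 + 4 * (A 0 1 * A 1 0) < 0 := by nlinarith
  have key : x ^ 2 + y * z ≤ 0 := by
    have e : x ^ 2 + y * z = (A 0 0 + A 1 1) ^ 2 + (B 0 0 + B 1 1) ^ 2 +
        (A 0 0 * B 0 0 + A 0 1 * B 1 0 + (A 1 0 * B 0 1 + A 1 1 * B 1 1)) ^ 2 -
        (A 0 0 + A 1 1) * (B 0 0 + B 1 1) *
          (A 0 0 * B 0 0 + A 0 1 * B 1 0 + (A 1 0 * B 0 1 + A 1 1 * B 1 1)) - 4 := by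
      rw [hx, hy, hz]
      linear_combination ((A 0 0 + A 1 1) ^ 2 - 4 * (A 0 0 * A 1 1 - A 0 1 * A 1 0)) * hB +
        ((B 0 0 + B 1 1) ^ 2 - 4) * hA
    rw [e]; linarith
  have hrel : (A 0 0 - A 1 1) * x + A 0 1 * z + A 1 0 * y = 0 := by rw [hx, hy, hz]; ring
  have hsum : (A 0 1 * x - (A 0 0 - A 1 1) * y / 2) ^ 2 +
      (-((A 0 0 - A 1 1) ^ 2 + 4 * (A 0 1 * A 1 0)) / 4) * y ^ 2 = A 0 1 ^ 2 * (x ^ 2 + y * z) := by
    linear_combination (-(A 0 1 * y)) * hrel
  have hq : A 0 1 ≠ 0 := by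
    intro h0
    rw [h0] at hd
    nlinarith [sq_nonneg (A 0 0 - A 1 1)]
  have hy0 : y = 0 := by
    by_contra hne
    have h1 : 0 < y ^ 2 := by positivity
    have h2 : 0 < (-((A 0 0 - A 1 1) ^ 2 + 4 * (A 0 1 * A 1 0)) / 4) * y ^ 2 := mul_pos (by linarith) h1
    have h3 : A 0 1 ^ 2 * (x ^ 2 + y * z) ≤ 0 := mul_nonpos_of_nonneg_of_nonpos (sq_nonneg _) key
    nlinarith [sq_nonneg (A 0 1 * x - (A 0 0 - A 1 1) * y / 2)]
  have hx0 : x = 0 := by
    rw [hy0] at key
    nlinarith [sq_nonneg x]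
  have hz0 : z = 0 := by
    rw [hx0, hy0] at hrel
    have : A 0 1 * z = 0 := by linarith
    rcases mul_eq_zero.1 this with h | h
    · exact absurd h hq
    · exact h
  rw [hx0] at hx
  rw [hy0] at hy
  rw [hz0] at hz
  ext i j
  fin_cases i <;> fin_cases j <;>
    simp [mul_apply, Fin.sum_univ_two] <;> linarith

end kills

end Pool.Agent.Q266.GPF
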