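import Pool.Agent.Q266.GPF.Pair

/-!
# The case distinction
-/

set_option autoImplicit false

namespace Pool.Agent.Q266.GPF

theorem ineq1 {a b u : ℝ} (ha0 : 0 < a) (ha2 : a < 2) (hb0 : 0 < b) (hb2 : b < 2) (hu0 : 0 < u)
    (hu : 2 * u < a * b) (hk : 4 < a ^ 2 + b ^ 2 + u ^ 2 - a * b * u) :
    b * (a * u - b) ≤ 2 * a ^ 2 - 4 := by
  have hA : 0 < 4 - a ^ 2 := by nlinarith
  have hB : 0 < 4 - b ^ 2 := by nlinarith
  set s := √((4 - a ^ 2) * (4 - b ^ 2)) with hs
  have hs0 : 0 ≤ s := Real.sqrt_nonneg _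
  have hs2 : s ^ 2 = (4 - a ^ 2) * (4 - b ^ 2) := Real.sq_sqrt (mul_pos hA hB).le
  have h1 : s < a * b - 2 * u := by
    apply lt_of_pow_lt_pow_left₀ 2 (by linarith)
    rw [hs2]; nlinarith
  obtain ⟨v, hv⟩ : ∃ v, v = (a * b - s) / 2 := ⟨_, rfl⟩
  have hv2 : v ^ 2 = a * b * v - a ^ 2 - b ^ 2 + 4 := by
    rw [hv]; nlinarith
  have huv : u < v := by rw [hv]; linarith
  have hva : v ≤ a := by rw [hv]; nlinarith
  have h2 : a * b * u ≤ a * b * v := by
    apply mul_le_mul_of_nonneg_left huv.le (mul_pos ha0 hb0).le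
  have h3 : v ^ 2 ≤ a ^ 2 := by nlinarith
  nlinarith

theorem ineq2 {a b u : ℝ} (ha2 : a < 2) (hb0 : 0 < b) (hba : b ≤ a)
    (hu : a * b ≤ 2 * u) (hk : 4 < a ^ 2 + b ^ 2 + u ^ 2 - a * b * u)
    (ht : a * b * u - a ^ 2 - b ^ 2 < 0) :
    -2 ≤ a * (b * u - a) - (b ^ 2 - 2) ∧
      (b ^ 2 - 2) * (a * (b * u - a) - (b ^ 2 - 2)) ≤ 2 * a ^ 2 - 4 := by
  have ha0 : 0 < a := by linarith
  have hb2 : b < 2 := by linarith
  have hA : 0 < 4 - a ^ 2 := by nlinarith
  have hB : 0 < 4 - b ^ 2 := by nlinarith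
  set s := √((4 - a ^ 2) * (4 - b ^ 2)) with hs
  have hs0 : 0 ≤ s := Real.sqrt_nonneg _
  have hs2 : s ^ 2 = (4 - a ^ 2) * (4 - b ^ 2) := Real.sq_sqrt (mul_pos hA hB).le
  have h1 : s < 2 * u - a * b := by
    apply lt_of_pow_lt_pow_left₀ 2 (by linarith)
    rw [hs2]; nlinarith
  obtain ⟨v, hv⟩ : ∃ v, v = (a * b + s) / 2 := ⟨_, rfl⟩
  have hv2 : v ^ 2 = a * b * v - a ^ 2 - b ^ 2 + 4 := by
    rw [hv]; nlinarith
  have hvu : v < u := by rw [hv]; linarith
  have hab := mul_pos ha0 hb0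
  have h2 : a * b * v ≤ a * b * u := mul_le_mul_of_nonneg_left hvu.le hab.le
  have h3 : v ^ 2 - 2 ≤ a * (b * u - a) - (b ^ 2 - 2) := by rw [hv2]; nlinarith
  refine ⟨by nlinarith [sq_nonneg v], ?_⟩
  rcases le_total 2 (b ^ 2) with hb | hb
  · have h4 : a * (b * u - a) - (b ^ 2 - 2) ≤ 2 := by nlinarith
    have h5 : (b ^ 2 - 2) * (a * (b * u - a) - (b ^ 2 - 2)) ≤ (b ^ 2 - 2) * 2 :=
      mul_le_mul_of_nonneg_left h4 (by linarith)
    nlinarith
  · have h5 : (2 - b ^ 2) * (v ^ 2 - 2) ≤ (2 - b ^ 2) * (a * (b * u - a) - (b ^ 2 - 2)) :=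
      mul_le_mul_of_nonneg_left h3 (by linarith)
    -- it remains to bound `(2 - b²) (2 - v²)`
    have h6 : b * (4 - a ^ 2 - b ^ 2) ≤ a * (2 - b ^ 2) * v := by
      have h7 : b * (4 - b ^ 2) * (2 - a ^ 2) ≤ a * (2 - b ^ 2) * s := by
        rcases le_total 2 (a ^ 2) with ha | ha
        · have h8 : 0 ≤ a * (2 - b ^ 2) * s := by
            apply mul_nonneg (mul_nonneg ha0.le (by linarith)) hs0
          have h9 : b * (4 - b ^ 2) * (2 - a ^ 2) ≤ 0 := by
            apply mul_nonpos_of_nonneg_of_nonpos (by positivity) (by linarith)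
          linarith
        · apply le_of_sq_le_sq _ (mul_nonneg (mul_nonneg ha0.le (by linarith)) hs0)
          have e1 : (a * (2 - b ^ 2) * s) ^ 2 = a ^ 2 * (2 - b ^ 2) ^ 2 * ((4 - a ^ 2) * (4 - b ^ 2)) := by
            rw [← hs2]; ring
          rw [e1]
          have e2 : a ^ 2 * (2 - b ^ 2) ^ 2 * ((4 - a ^ 2) * (4 - b ^ 2)) -
              (b * (4 - b ^ 2) * (2 - a ^ 2)) ^ 2 =
              4 * (4 - b ^ 2) * ((2 - b ^ 2) ^ 2 - (2 - a ^ 2) ^ 2) := by ring
          have e3 : 0 ≤ (2 - b ^ 2) ^ 2 - (2 - a ^ 2) ^ 2 := by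
            have : (2 - b ^ 2) ^ 2 - (2 - a ^ 2) ^ 2 = (a ^ 2 - b ^ 2) * (4 - a ^ 2 - b ^ 2) := by ring
            rw [this]
            apply mul_nonneg
            · nlinarith
            · linarith
          have e4 := mul_nonneg (mul_nonneg (by norm_num : (0:ℝ) ≤ 4) hB.le) e3
          linarith
      rw [hv]
      nlinarith
    have h8 : (2 - b ^ 2) * (2 - v ^ 2) ≤ 2 * a ^ 2 - 4 := by
      rw [hv2]
      nlinarith [mul_le_mul_of_nonneg_left h6 hb0.le]
    nlinarith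

theorem EE {a b u : ℝ} (h : PR 128 a b u) (ha0 : 0 < a) (ha2 : a < 2) (hb0 : 0 < b) (hb2 : b < 2)
    (hu : -2 < u) : False := by
  have ha4 : a ^ 2 < 4 := by nlinarith
  have hb4 : b ^ 2 < 4 := by nlinarith
  have h8 : PR 8 a b u := h.mono (by norm_num)
  have h32 : PR (4 * 8) a b u := h.mono (by norm_num)
  have hab := mul_pos ha0 hb0
  rcases le_or_gt u 0 with hu0 | hu0
  · have hu4 : u ^ 2 ≤ 4 := by nlinarith
    rcases le_or_gt b 1 with hb1 | hb1
    · exact h8.E1 hb0 hb1 ha4 hu4 (by nlinarith)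
    rcases le_or_gt a 1 with ha1 | ha1
    · exact h32.swap.E1 ha0 ha1 hb4 hu4 (by nlinarith)
    rcases le_or_gt (-1) u with hu1 | hu1
    · exact h8.E2 ha0 hb0 hu1 hu0 ha4 hb4.le
    · apply h8.R2 ha0
      · apply mul_nonneg_of_nonpos_of_nonpos
        · nlinarith
        · have : 1 < a * b := by nlinarith
          nlinarith
      · apply mul_nonneg ha0.le
        nlinarith
  · rcases le_or_gt 0 (a * b * u - a ^ 2 - b ^ 2) with ht | ht
    · refine h8.R1 (mul_nonneg hu0.le ht) hab (mul_nonneg hb0.le ?_)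
      by_contra hc
      push Not at hc
      nlinarith [mul_pos ha0 (neg_pos.2 hc)]
    · have hk := h8.kappa ha4
      rcases lt_or_ge (2 * u) (a * b) with h1 | h1
      · refine h8.K1 ha4.le hb4 ?_ (ineq1 ha0 ha2 hb0 hb2 hu0 h1 hk)
        have h5 : a * u < 2 * b := by
          have h6 := mul_lt_mul_of_pos_left h1 ha0
          have h7 := mul_lt_mul_of_pos_right ha4 hb0
          nlinarith
        have h6 : 0 < a * u := mul_pos ha0 hu0
        nlinarith
      · rcases le_total b a with hba | hba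
        · obtain ⟨e1, e2⟩ := ineq2 ha2 hb0 hba h1 hk ht
          refine h32.A_BB.K1 ha4.le ?_ ?_ e2
          · nlinarith [mul_pos (pow_pos hb0 2) (sub_pos.2 hb4)]
          · have : a * (b * u - a) - (b ^ 2 - 2) ≤ 2 := by nlinarith
            nlinarith
        · obtain ⟨e1, e2⟩ := ineq2 (a := b) (b := a) (u := u) hb2 ha0 hba (by linarith) (by linarith)
            (by linarith)
          have h32' : PR (4 * 8) b a u := (h : PR (4 * 32) a b u).swap
          refine h32'.A_BB.K1 hb4.le ?_ ?_ e2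
          · nlinarith [mul_pos (pow_pos ha0 2) (sub_pos.2 ha4)]
          · have : b * (a * u - b) - (a ^ 2 - 2) ≤ 2 := by nlinarith
            nlinarith

/-- one step: `b ≥ 2` -/
theorem HBstep {a b u : ℝ} (h : PR 512 a b u) (ha0 : 0 < a) (hb2 : 2 ≤ b) :
    0 < u ∧ 0 < b * u - a ∧ b * u - a < 2 ∧ 2 ≤ a := by
  have h8 : PR 8 a b u := h.mono (by norm_num)
  have h32 : PR (4 * 8) a b u := h.mono (by norm_num)
  have hab : 0 < a * b := by positivity
  have hu0 : 0 < u := by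
    by_contra hu
    push Not at hu
    exact h32.B_AA.R3 hb2 (by nlinarith [sq_nonneg a]) (by nlinarith)
  have ht : a * b * u - a ^ 2 - b ^ 2 < 0 := by
    by_contra ht
    push Not at ht
    refine h8.R1 (mul_nonneg hu0.le ht) hab (mul_nonneg (by linarith) ?_)
    by_contra hc
    push Not at hc
    nlinarith [mul_pos ha0 (neg_pos.2 hc)]
  obtain ⟨w, hw⟩ : ∃ w, w = b * u - a := ⟨_, rfl⟩
  have haw : a * w < b ^ 2 := by rw [hw]; linarith
  have hw2 : w < 2 := by
    by_contra hc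
    push Not at hc
    have h' := h32.B_ABB
    rw [← hw] at h'
    have hbu : b * (b * w - u) = b ^ 2 * w - w - a := by rw [hw]; ring
    have hr : 0 < b * w - u := by
      have : 0 < b * (b * w - u) := by
        rw [hbu]
        have h0 : 0 ≤ (w ^ 2 - 4) * (b ^ 2 - 1) := by apply mul_nonneg <;> nlinarith
        have h1 : 0 < w * (b ^ 2 * w - w - a) := by nlinarith
        by_contra hc'
        push Not at hc'
        nlinarith [mul_nonneg (by linarith : (0:ℝ) ≤ w) (neg_nonneg.2 hc')]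
      by_contra hc'
      push Not at hc'
      nlinarith [mul_nonneg (by linarith : (0:ℝ) ≤ b) (neg_nonneg.2 hc')]
    refine h'.R1 (mul_nonneg hr.le ?_) (by positivity) (mul_nonneg (by linarith) ?_)
    · have e : b * w * (b * w - u) - b ^ 2 - w ^ 2 = w ^ 2 * (b ^ 2 - 2) - a * w - b ^ 2 := by
        have : b * w * (b * w - u) = w * (b * (b * w - u)) := by ring
        rw [this, hbu]; ring
      rw [e]
      have : 0 ≤ (w ^ 2 - 4) * (b ^ 2 - 2) := by apply mul_nonneg <;> nlinarith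
      nlinarith
    · -- `w (b w - u) - b ≥ 0`
      have h1 : 0 ≤ b * (w * (b * w - u) - b) := by
        have : b * (w * (b * w - u) - b) = w * (b * (b * w - u)) - b ^ 2 := by ring
        rw [this, hbu]
        have : 0 ≤ (w ^ 2 - 4) * (b ^ 2 - 1) := by apply mul_nonneg <;> nlinarith
        nlinarith
      by_contra hc'
      push Not at hc'
      nlinarith [mul_pos (by linarith : (0:ℝ) < b) (neg_pos.2 hc')]
  have hw0 : 0 < w := by
    by_contra hc
    push Not at hc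
    have h' := h32.B_ABAB
    rw [← hw] at h'
    exact h'.R3 hb2 (by nlinarith [sq_nonneg u]) (by nlinarith)
  refine ⟨hu0, hw ▸ hw0, hw ▸ hw2, ?_⟩
  by_contra ha
  push Not at ha
  have hu2 : u < 2 := by nlinarith
  rcases le_or_gt (a * u - b) (-2) with hv | hv
  · exact h32.B_AA.R3 hb2 (by nlinarith [sq_nonneg a]) hv
  · exact EE ((h : PR (4 * 128) a b u).A_BA) ha0 ha hu0 hu2 hv

theorem HB {a b u : ℝ} (h : PR 8192 a b u) (ha0 : 0 < a) (hb2 : 2 ≤ b) : False := by
  obtain ⟨h1, h2, h3, h4⟩ := HBstep (h.mono (by norm_num)) ha0 hb2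
  have h' : PR (4 * 512) u b (b * u - a) := PR.AB_B (h : PR (4 * 2048) a b u)
  obtain ⟨h1', h2', h3', h4'⟩ := HBstep (h'.mono (by norm_num)) h1 hb2
  obtain ⟨_, _, _, h4''⟩ := HBstep h'.AB_B h2 hb2
  linarith

theorem main {a b u : ℝ} (h : PR 32768 a b u) (ha0 : 0 < a) (hb0 : 0 < b) : False := by
  rcases le_or_gt 2 b with hb | hb
  · exact HB (h.mono (by norm_num)) ha0 hb
  rcases le_or_gt 2 a with ha | ha
  · exact HB (h : PR (4 * 8192) a b u).swap hb0 ha
  rcases lt_or_ge (-2) u with hu | hu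
  · exact EE (h.mono (by norm_num)) ha0 ha hb0 hb hu
  · exact HB (h : PR (4 * 8192) a b u).A_BA.neg ha0 (by linarith)

end Pool.Agent.Q266.GPF
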